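import Mathlib
import Pool.Agent.R664.Haar.Conv7

set_option autoImplicit false

/-!
# Haar integral on compact Moufang loops: the Haar radical

Definitions used in the statement:
* `IsMoufang`, `TopMoufang` : `Pool/Agent/R664/Haar/Loop.lean`, `Pool/Agent/R664/Haar/Final.lean`
* `HasIntegral` : `Pool/Agent/R664/Haar/Conv6.lean`
* `HaarKernel` : `Pool/Agent/R664/Haar/Conv7.lean`
* `ClosedNormal` : `Pool/Agent/TH15/MoufangHaar/Defs.lean`
-/

namespace Pool.Agent.Results.MP_fd6bc6_al.HaarRadical

open Pool.Agent.R664.Haar
open Pool.Agent.TH15.MoufangHaar (ClosedNormal)

universe u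

/-- **Haar radical.** Every compact Moufang loop `L` has a connected closed normal subloop `M` such that
`L / M` has an invariant integral and such that, whenever `S` is a closed subloop of `L` containing `M` and
`T` is a closed normal subloop of `S` such that `S / T` has an invariant integral, `M` is contained in `T`.

(Here `S` is given by a compact Moufang loop with an injective continuous homomorphism `j` to `L`, and
`HaarKernel mulS T` says that `T` is the kernel of a continuous homomorphism of `S` onto a compact Moufang
loop with an invariant integral.) -/
theorem result (L : Type u) [TopologicalSpace L] [CompactSpace L] [T2Space L]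
    (mul ldiv rdiv : L → L → L) (e : L) (TL : TopMoufang mul ldiv rdiv e) :
    ∃ M : Set L, ClosedNormal mul ldiv e M ∧ IsConnected M ∧ HaarKernel mul M ∧
      ∀ (S : Type u) [TopologicalSpace S] [CompactSpace S] [T2Space S]
        (mulS ldivS rdivS : S → S → S) (eS : S) (j : S → L),
        TopMoufang mulS ldivS rdivS eS → Continuous j → Function.Injective j →
        (∀ x y, j (mulS x y) = mul (j x) (j y)) → M ⊆ Set.range j →
        ∀ T : Set S, HaarKernel mulS T → M ⊆ j '' T :=
  haar_radical TL

end Pool.Agent.Results.MP_fd6bc6_al.HaarRadical
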