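import Mathlib
import Pool.Agent.R664.Haar.Conv8

set_option autoImplicit false

/-!
# Haar integral on compact Moufang loops: a criterion

Definitions used in the statement:
* `IsMoufang`, `TopMoufang` : `Pool/Agent/R664/Haar/Loop.lean`, `Pool/Agent/R664/Haar/Final.lean`
* `HasIntegral` : `Pool/Agent/R664/Haar/Conv6.lean`
* `ClosedNormal` : `Pool/Agent/TH15/MoufangHaar/Defs.lean`
-/

namespace Pool.Agent.Results.MP_fd6bc6_al.HyperspaceCriterion

open TopologicalSpace (Compacts)
open Pool.Agent.R664.Haar
open Pool.Agent.TH15.MoufangHaar (ClosedNormal)

universe u

/-- For a compact Moufang loop `L` the following are equivalent: (1) `L` has an invariant integral; (2) `{e}`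
is a connected component of the space of closed normal subloops of `L` (a subspace of the hyperspace of
compact subsets of `L`); (3) the space of closed normal subloops of `L` is totally disconnected. -/
theorem result (L : Type u) [TopologicalSpace L] [CompactSpace L] [T2Space L]
    (mul ldiv rdiv : L → L → L) (e : L) (TL : TopMoufang mul ldiv rdiv e) :
    List.TFAE [HasIntegral mul,
      connectedComponentIn {N : Compacts L | ClosedNormal mul ldiv e (N : Set L)} {e} = {{e}},
      IsTotallyDisconnected {N : Compacts L | ClosedNormal mul ldiv e (N : Set L)}] :=
  criterion TL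

end Pool.Agent.Results.MP_fd6bc6_al.HyperspaceCriterion
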