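import Mathlib
import Pool.Agent.R664.Haar.Conv13

set_option autoImplicit false

/-!
# Haar integral on compact Moufang loops: normal subloops and quotients

Definitions used in the statement:
* `IsMoufang`, `TopMoufang` : `Pool/Agent/R664/Haar/Loop.lean`, `Pool/Agent/R664/Haar/Final.lean`
* `HasIntegral` : `Pool/Agent/R664/Haar/Conv6.lean`
* `HaarKernel` : `Pool/Agent/R664/Haar/Conv7.lean`
* `HaarSub` : `Pool/Agent/R664/Haar/Conv9.lean`
* `ClosedNormal` : `Pool/Agent/TH15/MoufangHaar/Defs.lean`
-/

namespace Pool.Agent.Results.MP_fd6bc6_al.NormalSubloops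

open Pool.Agent.R664.Haar
open Pool.Agent.TH15.MoufangHaar (ClosedNormal)

universe u

/-- Let `N` be a closed normal subloop of a compact Moufang loop `L`. Then `L` has an invariant integral if
and only if both `N` and `L / N` have an invariant integral. -/
theorem result (L : Type u) [TopologicalSpace L] [CompactSpace L] [T2Space L]
    (mul ldiv rdiv : L → L → L) (e : L) (TL : TopMoufang mul ldiv rdiv e) (N : Set L)
    (hN : ClosedNormal mul ldiv e N) :
    HasIntegral mul ↔ HaarSub mul N ∧ HaarKernel mul N :=
  two_of_three TL hN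

end Pool.Agent.Results.MP_fd6bc6_al.NormalSubloops
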