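import Mathlib
import Pool.Agent.R664.Haar.Conv11

set_option autoImplicit false

/-!
# Haar integral on compact Moufang loops: a reduction

Definitions used in the statement:
* `IsMoufang`, `TopMoufang` : `Pool/Agent/R664/Haar/Loop.lean`, `Pool/Agent/R664/Haar/Final.lean`
* `HasIntegral` : `Pool/Agent/R664/Haar/Conv6.lean`
* `HaarKernel` : `Pool/Agent/R664/Haar/Conv7.lean`
* `HaarSub` : `Pool/Agent/R664/Haar/Conv9.lean`
* `ClosedNormal` : `Pool/Agent/TH15/MoufangHaar/Defs.lean`
-/

namespace Pool.Agent.Results.MP_fd6bc6_al.Reduction

open TopologicalSpace (Compacts)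
open Pool.Agent.R664.Haar
open Pool.Agent.TH15.MoufangHaar (ClosedNormal)

universe u

/-- Every compact Moufang loop has an invariant integral if and only if every nontrivial compact connected
metrizable Moufang loop `K`, whose space of closed normal subloops is connected, has a closed normal subloop
`N` such that `N ≠ {e}` and `N` has an invariant integral, or `N ≠ K` and `K / N` has an invariant
integral. -/
theorem result :
    (∀ (L : Type u) [TopologicalSpace L] [CompactSpace L] [T2Space L] (mul ldiv rdiv : L → L → L)
      (e : L), TopMoufang mul ldiv rdiv e → HasIntegral mul) ↔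
    (∀ (K : Type u) [TopologicalSpace K] [CompactSpace K] [TopologicalSpace.MetrizableSpace K]
      [ConnectedSpace K] [Nontrivial K] (mul ldiv rdiv : K → K → K) (e : K),
      TopMoufang mul ldiv rdiv e →
      IsConnected {N : Compacts K | ClosedNormal mul ldiv e (N : Set K)} →
      ∃ N : Set K, ClosedNormal mul ldiv e N ∧
        ((N ≠ {e} ∧ HaarSub mul N) ∨ (N ≠ Set.univ ∧ HaarKernel mul N))) :=
  reduction_iff

end Pool.Agent.Results.MP_fd6bc6_al.Reduction
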